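import Pool.Agent.Lib.MP_16285c_agZ.UPP.Dg

/-!
# The function field of an irreducible plane curve
-/

set_option autoImplicit false

open Polynomial

namespace Pool.Agent.Lib.MP_16285c_agZ

section

variable {K L : Type} [Field K] [Field L] [Algebra K L]

theorem finrank_map' (φ : L →ₐ[K] L) (A : IntermediateField K L) :
    Module.finrank (A.map φ) L = Module.finrank A L * Module.finrank φ.fieldRange L := by
  have h1 : A.map φ ≤ φ.fieldRange := by
    rw [AlgHom.fieldRange_eq_map]
    exact IntermediateField.map_mono φ le_top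
  rw [← IntermediateField.relfinrank_mul_finrank_top h1, AlgHom.fieldRange_eq_map,
    IntermediateField.relfinrank_map_map, IntermediateField.relfinrank_top_right]

theorem finrank_pow' (φ : L →ₐ[K] L) (g : L) (N : ℕ) :
    Module.finrank (IntermediateField.adjoin K {(φ ^ N) g}) L =
      Module.finrank (IntermediateField.adjoin K {g}) L * Module.finrank φ.fieldRange L ^ N := by
  induction N with
  | zero => rw [pow_zero, AlgHom.one_apply, pow_zero, mul_one]
  | succ N ih =>
    have h : IntermediateField.adjoin K {(φ ^ (N + 1)) g} =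
        (IntermediateField.adjoin K {(φ ^ N) g}).map φ := by
      rw [IntermediateField.adjoin_map, Set.image_singleton, pow_succ', AlgHom.mul_apply]
    rw [h, finrank_map', ih, pow_succ, mul_assoc]

end

section

variable {K : Type} [Field K]

/-- A polynomial as a polynomial in the variable different from `X i` over `K[X i]`. -/
noncomputable def tw (i : Fin 2) : Pl K →ₐ[K] K[X][X] :=
  MvPolynomial.aeval fun k => if k = i then C X else X

theorem tw_eval {R : Type} [CommRing R] [Algebra K R] (i : Fin 2) (f : Pl K →ₐ[K] R) (H : Pl K) :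
    aevalAeval (f (MvPolynomial.X i)) (f (MvPolynomial.X (1 - i))) (tw i H) = f H := by
  have key : (aevalAeval (f (MvPolynomial.X i)) (f (MvPolynomial.X (1 - i)))).comp (tw i) = f := by
    apply MvPolynomial.algHom_ext
    intro k
    rw [AlgHom.comp_apply, tw, MvPolynomial.aeval_X]
    split_ifs with h
    · rw [aevalAeval_X, h]
    · rw [aevalAeval_Y]
      congr 2
      revert h
      revert k
      revert i
      decide
  exact congrArg (fun g : Pl K →ₐ[K] R => g H) key

theorem tw_inj (i : Fin 2) : Function.Injective (tw (K := K) i) := by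
  intro H H' h
  have h1 := tw_eval i (AlgHom.id K (Pl K)) H
  rw [h, tw_eval i (AlgHom.id K (Pl K)) H'] at h1
  exact h1.symm

variable {P : Pl K} {L : Type} [Field L] [Algebra (CR P) L] [IsFractionRing (CR P) L] [Algebra K L]
  [IsScalarTower K (CR P) L]

/-- The restriction of polynomials to the curve. -/
noncomputable def rs (P : Pl K) (L : Type) [Field L] [Algebra (CR P) L] [Algebra K L]
    [IsScalarTower K (CR P) L] : Pl K →ₐ[K] L :=
  (IsScalarTower.toAlgHom K (CR P) L).comp (Ideal.Quotient.mkₐ K (Ideal.span {P}))

omit [IsFractionRing (CR P) L] in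
theorem rs_apply (H : Pl K) : rs P L H = algebraMap (CR P) L (Ideal.Quotient.mk _ H) := rfl

omit [IsFractionRing (CR P) L] in
theorem rs_self : rs P L P = 0 := by
  rw [rs_apply, Ideal.Quotient.eq_zero_iff_mem.2 (Ideal.mem_span_singleton_self P), map_zero]

theorem rs_eq_zero (H : Pl K) (h : rs P L H = 0) : P ∣ H := by
  rw [rs_apply] at h
  have h1 := IsFractionRing.injective (CR P) L (h.trans (map_zero _).symm)
  exact Ideal.mem_span_singleton.1 (Ideal.Quotient.eq_zero_iff_mem.1 h1)

/-- One of the coordinate functions is transcendental. -/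
theorem exists_transcendental (hP : Irreducible P) :
    ∃ i : Fin 2, Transcendental K (rs P L (MvPolynomial.X i)) := by
  by_contra hcon
  push Not at hcon
  have halg : ∀ i : Fin 2, IsAlgebraic K (rs P L (MvPolynomial.X i)) := fun i =>
    not_not.1 (hcon i)
  obtain ⟨a, ha0, ha⟩ := halg 0
  obtain ⟨b, hb0, hb⟩ := halg 1
  have h1 : P ∣ aeval (MvPolynomial.X 0 : Pl K) a := by
    apply rs_eq_zero (L := L)
    rw [← ha, ← aeval_algHom_apply]
  have h2 : P ∣ aeval (MvPolynomial.X 1 : Pl K) b := by
    apply rs_eq_zero (L := L)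
    rw [← hb, ← aeval_algHom_apply]
  have h3 : tw 0 P ∣ C a := by
    have h := map_dvd (tw (K := K) 0) h1
    rw [← aeval_algHom_apply] at h
    have e : tw (K := K) 0 (MvPolynomial.X 0) = C X := by
      rw [tw, MvPolynomial.aeval_X, if_pos rfl]
    have e' : aeval (C X : K[X][X]) a = C a := by
      have := aeval_algHom_apply (CAlgHom : K[X] →ₐ[K] K[X][X]) X a
      rw [aeval_X_left_apply] at this
      exact this
    rw [e, e'] at h
    exact h
  have h4 : tw 0 P ∣ b.map C := by
    have h := map_dvd (tw (K := K) 0) h2
    rw [← aeval_algHom_apply] at h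
    have e : tw (K := K) 0 (MvPolynomial.X 1) = X := by
      rw [tw, MvPolynomial.aeval_X, if_neg (by decide)]
    have e' : aeval (X : K[X][X]) b = b.map C := by
      rw [← Bivariate.swap_C, Bivariate.swap_apply, aevalAeval_C]
    rw [e, e'] at h
    exact h
  have h5 : (tw 0 P).natDegree = 0 := by
    have := natDegree_le_of_dvd h3 (by simpa using ha0)
    rw [natDegree_C] at this
    omega
  rw [eq_C_of_natDegree_eq_zero h5] at h4
  have h6 := (C_dvd_iff_dvd_coeff _ _).1 h4 b.natDegree
  rw [coeff_map] at h6
  have h7 : IsUnit ((tw 0 P).coeff 0) := by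
    refine isUnit_of_dvd_unit h6 ?_
    rw [isUnit_C, isUnit_iff_ne_zero]
    exact leadingCoeff_ne_zero.2 hb0
  have h8 : IsUnit (tw 0 P) := by
    rw [eq_C_of_natDegree_eq_zero h5]
    exact h7.map C
  have h9 := h8.map (aevalAeval (AlgHom.id K (Pl K) (MvPolynomial.X 0))
    (AlgHom.id K (Pl K) (MvPolynomial.X (1 - 0))))
  rw [tw_eval] at h9
  exact hP.1 h9

/-- `L` is generated by the coordinate functions. -/
theorem adjoin_top (E : IntermediateField K L) :
    IntermediateField.adjoin E {rs P L (MvPolynomial.X 0), rs P L (MvPolynomial.X 1)} = ⊤ := by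
  rw [eq_top_iff]
  intro x _
  have hmem : ∀ H : Pl K, rs P L H ∈
      IntermediateField.adjoin E {rs P L (MvPolynomial.X 0), rs P L (MvPolynomial.X 1)} := by
    intro H
    induction H using MvPolynomial.induction_on with
    | C a =>
      have e : rs P L (MvPolynomial.C a) = algebraMap E L (algebraMap K E a) := by
        rw [← IsScalarTower.algebraMap_apply, ← AlgHom.commutes (rs P L) a]
        rfl
      rw [e]
      exact (IntermediateField.adjoin E _).algebraMap_mem _
    | add p q hp hq =>
      rw [map_add]
      exact add_mem hp hq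
    | mul_X p i hp =>
      rw [map_mul]
      refine mul_mem hp (IntermediateField.subset_adjoin _ _ ?_)
      fin_cases i
      · exact Or.inl rfl
      · exact Or.inr rfl
  obtain ⟨a, b, -, hab⟩ := IsFractionRing.div_surjective (A := CR P) x
  obtain ⟨H, rfl⟩ := Ideal.Quotient.mk_surjective a
  obtain ⟨H', rfl⟩ := Ideal.Quotient.mk_surjective b
  rw [← hab]
  exact div_mem (hmem H) (hmem H')

theorem finDim (i : Fin 2) (hP : P ≠ 0) (hi : Transcendental K (rs P L (MvPolynomial.X i))) (w : L)
    (h : IsAlgebraic (IntermediateField.adjoin K {w}) (rs P L (MvPolynomial.X i))) :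
    FiniteDimensional (IntermediateField.adjoin K {w}) L := by
  set E := IntermediateField.adjoin K {w} with hE
  set x := rs P L (MvPolynomial.X i) with hx
  set y := rs P L (MvPolynomial.X (1 - i)) with hy
  set A := algebraicClosure E L with hA
  have hxA : x ∈ A := mem_algebraicClosure_iff.2 h
  set ψ : K[X] →+* A := eval₂RingHom ((algebraMap E A).comp (algebraMap K E)) ⟨x, hxA⟩ with hψ
  have hcomp : (algebraMap A L).comp ψ = eval₂RingHom (algebraMap K L) x := by
    apply Polynomial.ringHom_ext'
    · apply RingHom.ext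
      intro c
      simp only [hψ, RingHom.comp_apply, coe_eval₂RingHom, eval₂_C]
      rw [← IsScalarTower.algebraMap_apply E A L, ← IsScalarTower.algebraMap_apply K E L]
    · simp only [hψ, RingHom.comp_apply, coe_eval₂RingHom, eval₂_X]
      rfl
  have hinj : Function.Injective ψ := by
    rw [injective_iff_map_eq_zero]
    intro p hp
    have h3 := congrArg (fun f : K[X] →+* L => f p) hcomp
    simp only [RingHom.comp_apply, hp, map_zero] at h3
    exact (transcendental_iff.1 hi) p h3.symm
  have hyA : IsAlgebraic A y := by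
    refine ⟨(tw i P).map ψ, (Polynomial.map_ne_zero_iff hinj).2 ?_, ?_⟩
    · exact (map_ne_zero_iff (tw (K := K) i) (tw_inj i)).2 hP
    · rw [aeval_def, eval₂_map, hcomp, ← aa_eq, hx, hy, tw_eval, rs_self]
  have hyE : IsAlgebraic E y := hyA.restrictScalars E
  have hfin : FiniteDimensional E (IntermediateField.adjoin E
      ({rs P L (MvPolynomial.X 0), rs P L (MvPolynomial.X 1)} : Set L)) := by
    refine IntermediateField.finiteDimensional_adjoin fun z hz => ?_
    have hz' : IsAlgebraic E z := by
      rcases hz with rfl | hz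
      · fin_cases i
        · exact h
        · exact hyE
      · rw [Set.mem_singleton_iff.1 hz]
        fin_cases i
        · exact hyE
        · exact h
    exact hz'.isIntegral
  rw [adjoin_top] at hfin
  exact (IntermediateField.topEquiv (F := E) (E := L)).toLinearEquiv.finiteDimensional

/-- The relation between a coordinate function and its pull back under an iterate. -/
theorem rel_exists (i : Fin 2) (hP : P ≠ 0) (hi : Transcendental K (rs P L (MvPolynomial.X i)))
    (ρb : L →ₐ[K] L) :
    1 ≤ Module.finrank ρb.fieldRange L ∧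
    1 ≤ Module.finrank (IntermediateField.adjoin K {rs P L (MvPolynomial.X i)}) L ∧
    ∀ N : ℕ, ∃ Φ : K[X][X], Φ ≠ 0 ∧
      (∀ j, (Φ.coeff j).natDegree ≤
        Module.finrank (IntermediateField.adjoin K {rs P L (MvPolynomial.X i)}) L *
          Module.finrank ρb.fieldRange L ^ N) ∧
      aevalAeval (rs P L (MvPolynomial.X i)) ((ρb ^ N) (rs P L (MvPolynomial.X i))) Φ = 0 := by
  set x := rs P L (MvPolynomial.X i) with hx
  have h0 : FiniteDimensional (IntermediateField.adjoin K {x}) L := by
    refine finDim i hP hi x ?_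
    exact isAlgebraic_algebraMap
      (⟨x, IntermediateField.mem_adjoin_simple_self K x⟩ : IntermediateField.adjoin K {x})
  have hN : ∀ N : ℕ, FiniteDimensional (IntermediateField.adjoin K {(ρb ^ N) x}) L := by
    intro N
    refine finDim i hP hi _ (exchange x _ ?_ (Algebra.IsAlgebraic.isAlgebraic _))
    exact fun h => hi ((isAlgebraic_algHom_iff (ρb ^ N) (ρb ^ N).injective).1 h)
  have hd : 1 ≤ Module.finrank (IntermediateField.adjoin K {x}) L := Module.finrank_pos
  refine ⟨?_, hd, fun N => ?_⟩
  · have := hN 1
    have h1 : 0 < Module.finrank (IntermediateField.adjoin K {(ρb ^ 1) x}) L := Module.finrank_pos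
    rw [finrank_pow', pow_one] at h1
    exact Nat.pos_of_mul_pos_left h1
  · have := hN N
    obtain ⟨Φ, h1, h2, h3⟩ := biv_rel (K := K) ((ρb ^ N) x) x (Algebra.IsAlgebraic.isAlgebraic _) _ le_rfl
    refine ⟨Φ, h1, fun j => (h2 j).trans ?_, h3⟩
    rw [← finrank_pow']
    exact minpoly.natDegree_le x

end

end Pool.Agent.Lib.MP_16285c_agZ
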