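import Pool.Agent.Lib.MP_16285c_agZ.Defs

/-!
# Degrees of the function field of a curve over simple subfields
-/

set_option autoImplicit false

open Polynomial

namespace Pool.Agent.Lib.MP_16285c_agZ

section

variable {K L : Type} [Field K] [Field L] [Algebra K L]

/-- Elements of `K(v)` have a common denominator. -/
theorem common_den (v : L) (n : ℕ) (c : ℕ → L)
    (hc : ∀ i < n, c i ∈ IntermediateField.adjoin K {v}) :
    ∃ s : K[X], aeval v s ≠ 0 ∧ ∀ i < n, ∃ r : K[X], c i * aeval v s = aeval v r := by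
  induction n with
  | zero => exact ⟨1, by simp, fun i hi => absurd hi (Nat.not_lt_zero i)⟩
  | succ n ih =>
    obtain ⟨s, hs, h⟩ := ih fun i hi => hc i (Nat.lt_succ_of_lt hi)
    obtain ⟨r', s', hrs⟩ := (IntermediateField.mem_adjoin_simple_iff K _).1 (hc n (Nat.lt_succ_self n))
    by_cases h0 : aeval v s' = 0
    · refine ⟨s, hs, fun i hi => ?_⟩
      rcases Nat.lt_succ_iff_lt_or_eq.1 hi with h1 | rfl
      · exact h i h1
      · refine ⟨0, ?_⟩
        rw [hrs, h0, div_zero, zero_mul, map_zero]
    · refine ⟨s * s', by rw [map_mul]; exact mul_ne_zero hs h0, fun i hi => ?_⟩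
      rcases Nat.lt_succ_iff_lt_or_eq.1 hi with h1 | rfl
      · obtain ⟨r, hr⟩ := h i h1
        refine ⟨r * s', ?_⟩
        rw [map_mul, map_mul, ← hr]
        ring
      · refine ⟨r' * s, ?_⟩
        rw [hrs, map_mul, map_mul]
        field_simp

/-- A relation between `v` and `u` of degree at most `a` in `u`. -/
theorem biv_rel (v u : L) (h : IsAlgebraic (IntermediateField.adjoin K {v}) u) (a : ℕ)
    (ha : (minpoly (IntermediateField.adjoin K {v}) u).natDegree ≤ a) :
    ∃ Φ : K[X][X], Φ ≠ 0 ∧ (∀ j, (Φ.coeff j).natDegree ≤ a) ∧ aevalAeval u v Φ = 0 := by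
  set m := minpoly (IntermediateField.adjoin K {v}) u with hm
  obtain ⟨s, hs, hr⟩ := common_den v (m.natDegree + 1)
    (fun i => (m.coeff i : L)) fun i _ => (m.coeff i).2
  choose! r hr using hr
  have hsum : ∑ i ∈ Finset.range (m.natDegree + 1), aeval v (r i) * u ^ i = 0 := by
    have h1 : aeval u m = 0 := minpoly.aeval _ _
    rw [aeval_eq_sum_range] at h1
    have h2 : ∑ i ∈ Finset.range (m.natDegree + 1), aeval v (r i) * u ^ i =
        aeval v s * ∑ i ∈ Finset.range (m.natDegree + 1), m.coeff i • u ^ i := by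
      rw [Finset.mul_sum]
      refine Finset.sum_congr rfl fun i hi => ?_
      rw [← hr i (Finset.mem_range.1 hi), Algebra.smul_def]
      change _ = aeval v s * (((m.coeff i : IntermediateField.adjoin K {v}) : L) * u ^ i)
      ring
    rw [h2, h1, mul_zero]
  set Ψ : K[X][X] := ∑ i ∈ Finset.range (m.natDegree + 1), C (r i) * X ^ i with hΨ
  have hΨ0 : Ψ ≠ 0 := by
    intro h0
    have h1 := congrArg (fun p : K[X][X] => p.coeff m.natDegree) h0
    simp only [hΨ, finsetSum_coeff, coeff_C_mul, coeff_X_pow, coeff_zero, mul_ite, mul_one,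
      mul_zero] at h1
    rw [Finset.sum_ite_eq (Finset.range (m.natDegree + 1)) m.natDegree] at h1
    simp only [Finset.mem_range, Nat.lt_succ_self, if_true] at h1
    have h2 := hr m.natDegree (Nat.lt_succ_self _)
    rw [h1, map_zero] at h2
    have h3 : m.coeff m.natDegree = 1 := (minpoly.monic h.isIntegral).coeff_natDegree
    rw [h3] at h2
    simp only [OneMemClass.coe_one, one_mul] at h2
    exact hs h2
  refine ⟨Bivariate.swap Ψ, ?_, ?_, ?_⟩
  · intro h0
    exact hΨ0 ((map_eq_zero_iff (Bivariate.swap (R := K)) (Bivariate.swap (R := K)).injective).1 h0)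
  · intro j
    have e : Bivariate.swap Ψ = ∑ i ∈ Finset.range (m.natDegree + 1), (r i).map C * C (X ^ i) := by
      rw [hΨ, map_sum]
      refine Finset.sum_congr rfl fun i _ => ?_
      rw [map_mul, map_pow, Bivariate.swap_C, Bivariate.swap_Y, C_pow]
    rw [e, finsetSum_coeff]
    refine natDegree_sum_le_of_forall_le _ _ fun i hi => ?_
    rw [coeff_mul_C, coeff_map]
    refine (natDegree_C_mul_X_pow_le _ _).trans ?_
    have := Finset.mem_range.1 hi
    omega
  · rw [Bivariate.aevalAeval_swap, hΨ, map_sum, ← hsum]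
    refine Finset.sum_congr rfl fun i _ => ?_
    rw [map_mul, map_pow, aevalAeval_C, aevalAeval_Y]

theorem aa_eq (u v : L) (Φ : K[X][X]) :
    aevalAeval u v Φ = eval₂ (eval₂RingHom (algebraMap K L) u) v Φ := by
  induction Φ using Polynomial.induction_on' with
  | add p q hp hq => rw [map_add, hp, hq, eval₂_add]
  | monomial n a =>
    rw [← C_mul_X_pow_eq_monomial, map_mul, map_pow, aevalAeval_C, aevalAeval_Y, eval₂_mul,
      eval₂_C, eval₂_pow, eval₂_X]
    rfl

/-- Exchange. -/
theorem exchange (g w : L) (hw : Transcendental K w)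
    (h : IsAlgebraic (IntermediateField.adjoin K {g}) w) :
    IsAlgebraic (IntermediateField.adjoin K {w}) g := by
  obtain ⟨Φ, h0, -, h2⟩ := biv_rel g w h _ le_rfl
  -- `Φ(w)(g) = 0`, `Φ ∈ K[w][g]`
  have hmem : w ∈ IntermediateField.adjoin K {w} := IntermediateField.mem_adjoin_simple_self K w
  set φ : K[X] →+* IntermediateField.adjoin K {w} :=
    eval₂RingHom (algebraMap K _) (⟨w, hmem⟩ : IntermediateField.adjoin K {w}) with hφ
  have hcomp : (algebraMap (IntermediateField.adjoin K {w}) L).comp φ =
      eval₂RingHom (algebraMap K L) w := by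
    apply Polynomial.ringHom_ext'
    · apply RingHom.ext
      intro c
      simp [hφ]
    · simp [hφ]
  have hinj : Function.Injective φ := by
    rw [injective_iff_map_eq_zero]
    intro p hp
    have h3 := congrArg (fun f : K[X] →+* L => f p) hcomp
    simp only [RingHom.comp_apply, hp, map_zero] at h3
    exact (transcendental_iff.1 hw) p h3.symm
  refine ⟨Φ.map φ, (Polynomial.map_ne_zero_iff hinj).2 h0, ?_⟩
  rw [aeval_def, eval₂_map, hcomp, ← aa_eq, h2]

end

end Pool.Agent.Lib.MP_16285c_agZ
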