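import Pool.Agent.Lib.MP_16285c_agZ.Defs

/-!
# Values of the elements of the function field of a curve along a generic orbit
-/

set_option autoImplicit false

open Filter

namespace Pool.Agent.Lib.MP_16285c_agZ

section

variable {K : Type} [Field K] {P : Pl K}

/-- The germs of the values at the points `z (t + n)`. -/
noncomputable def gm (z : ℕ → Fin 2 → K) (hz : ∀ t, MvPolynomial.eval (z t) P = 0) (n : ℕ) :
    CR P →+* Filter.Germ (atTop : Filter ℕ) K :=
  Ideal.Quotient.lift (Ideal.span {P})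
    ((Filter.Germ.coeRingHom (atTop : Filter ℕ)).comp
      (RingHom.pi fun t => MvPolynomial.eval (z (t + n)))) (by
    intro a ha
    obtain ⟨b, rfl⟩ := Ideal.mem_span_singleton.1 ha
    rw [map_mul]
    have h : ((Filter.Germ.coeRingHom (atTop : Filter ℕ)).comp
      (RingHom.pi fun t => MvPolynomial.eval (z (t + n)))) P = 0 := by
      have h1 : (RingHom.pi fun t => MvPolynomial.eval (z (t + n))) P = 0 := by
        funext t
        exact hz (t + n)
      rw [RingHom.comp_apply, h1, map_zero]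
    rw [h, zero_mul])

theorem gm_mk (z : ℕ → Fin 2 → K) (hz : ∀ t, MvPolynomial.eval (z t) P = 0) (n : ℕ) (H : Pl K) :
    gm z hz n (Ideal.Quotient.mk _ H) =
      ((fun t => MvPolynomial.eval (z (t + n)) H : ℕ → K) : Filter.Germ (atTop : Filter ℕ) K) :=
  rfl

theorem gm_unit (z : ℕ → Fin 2 → K) (hz : ∀ t, MvPolynomial.eval (z t) P = 0)
    (hD : ∀ Q : Pl K, ¬ P ∣ Q → ∃ t₀, ∀ t ≥ t₀, MvPolynomial.eval (z t) Q ≠ 0) (n : ℕ)
    (H : Pl K) (hH : ¬ P ∣ H) : IsUnit (gm z hz n (Ideal.Quotient.mk _ H)) := by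
  obtain ⟨t₀, ht₀⟩ := hD H hH
  rw [gm_mk]
  refine IsUnit.of_mul_eq_one
    ((fun t => (MvPolynomial.eval (z (t + n)) H)⁻¹ : ℕ → K) : Filter.Germ (atTop : Filter ℕ) K) ?_
  rw [← Filter.Germ.coe_mul]
  apply Filter.Germ.coe_eq.2
  filter_upwards [eventually_ge_atTop t₀] with t ht
  exact mul_inv_cancel₀ (ht₀ (t + n) (by omega))

variable {L : Type} [Field L] [Algebra (CR P) L] [IsFractionRing (CR P) L]

theorem gm_unit' (z : ℕ → Fin 2 → K) (hz : ∀ t, MvPolynomial.eval (z t) P = 0)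
    (hD : ∀ Q : Pl K, ¬ P ∣ Q → ∃ t₀, ∀ t ≥ t₀, MvPolynomial.eval (z t) Q ≠ 0) (n : ℕ)
    (y : nonZeroDivisors (CR P)) (hdom : IsDomain (CR P)) : IsUnit (gm z hz n (y : CR P)) := by
  obtain ⟨H, hH⟩ := Ideal.Quotient.mk_surjective (y : CR P)
  rw [← hH]
  refine gm_unit z hz hD n H fun h => ?_
  have h0 : Ideal.Quotient.mk (Ideal.span {P}) H = 0 :=
    Ideal.Quotient.eq_zero_iff_mem.2 (Ideal.mem_span_singleton.2 h)
  rw [hH] at h0
  exact nonZeroDivisors.coe_ne_zero y h0

/-- The germs of the values of the elements of the function field. -/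
noncomputable def vl (L : Type) [Field L] [Algebra (CR P) L] [IsFractionRing (CR P) L]
    (hdom : IsDomain (CR P)) (z : ℕ → Fin 2 → K)
    (hz : ∀ t, MvPolynomial.eval (z t) P = 0)
    (hD : ∀ Q : Pl K, ¬ P ∣ Q → ∃ t₀, ∀ t ≥ t₀, MvPolynomial.eval (z t) Q ≠ 0) (n : ℕ) :
    L →+* Filter.Germ (atTop : Filter ℕ) K :=
  IsLocalization.lift (M := nonZeroDivisors (CR P)) (S := L) (g := gm z hz n)
    fun y => gm_unit' z hz hD n y hdom

theorem vl_mk (hdom : IsDomain (CR P)) (z : ℕ → Fin 2 → K)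
    (hz : ∀ t, MvPolynomial.eval (z t) P = 0)
    (hD : ∀ Q : Pl K, ¬ P ∣ Q → ∃ t₀, ∀ t ≥ t₀, MvPolynomial.eval (z t) Q ≠ 0) (n : ℕ) (H : Pl K) :
    vl L hdom z hz hD n (algebraMap (CR P) L (Ideal.Quotient.mk _ H)) =
      ((fun t => MvPolynomial.eval (z (t + n)) H : ℕ → K) : Filter.Germ (atTop : Filter ℕ) K) := by
  rw [vl, IsLocalization.lift_eq, gm_mk]

/-- The values of a rational function and of its pull back. -/
theorem eval_of_val (ρ : RF K →ₐ[K] RF K) (x x' : Fin 2 → K) (h : Val ρ x x') (H E N : Pl K)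
    (hEN : ρ (fr H) * fr E = fr N) :
    MvPolynomial.eval x N = MvPolynomial.eval x' H * MvPolynomial.eval x E := by
  obtain ⟨E', N', h1, h2, h3⟩ := h H
  have h4 : fr (N * E') = fr (N' * E) := by
    rw [fr, fr, map_mul, map_mul]
    change fr N * fr E' = fr N' * fr E
    rw [← hEN, h2]
    ring
  have h5 : N * E' = N' * E := IsFractionRing.injective (MvPolynomial (Fin 2) K) (RF K) h4
  have h6 := congrArg (MvPolynomial.eval x) h5
  rw [map_mul, map_mul, h3] at h6
  apply mul_right_cancel₀ h1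
  rw [h6]
  ring

variable [Algebra K L]

theorem vl_shift (hdom : IsDomain (CR P)) (ρ : RF K →ₐ[K] RF K) (ρb : L →ₐ[K] L)
    (hres : ∀ H : Pl K, Rsd P L (ρ (fr H)) (ρb (algebraMap (CR P) L (Ideal.Quotient.mk _ H))))
    (z : ℕ → Fin 2 → K) (hflow : Flow ρ z)
    (hz : ∀ t, MvPolynomial.eval (z t) P = 0)
    (hD : ∀ Q : Pl K, ¬ P ∣ Q → ∃ t₀, ∀ t ≥ t₀, MvPolynomial.eval (z t) Q ≠ 0) (n : ℕ) (w : L) :
    vl L hdom z hz hD n (ρb w) = vl L hdom z hz hD (n + 1) w := by
  have key : (vl L hdom z hz hD n).comp (ρb : L →+* L) = vl L hdom z hz hD (n + 1) := by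
    refine IsLocalization.ringHom_ext (nonZeroDivisors (CR P)) ?_
    apply RingHom.ext
    intro y
    obtain ⟨H, rfl⟩ := Ideal.Quotient.mk_surjective y
    obtain ⟨N, E, hE, h1, h2⟩ := hres H
    rw [RingHom.comp_apply, RingHom.comp_apply, RingHom.comp_apply, vl_mk]
    have h3 := congrArg (vl L hdom z hz hD n) h2
    rw [map_mul, vl_mk, vl_mk] at h3
    have hu := gm_unit z hz hD n E hE
    rw [gm_mk] at hu
    apply hu.mul_right_cancel
    change vl L hdom z hz hD n (ρb _) * _ = _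
    rw [h3, ← Filter.Germ.coe_mul]
    congr 1
    funext t
    have h4 := eval_of_val ρ (z (t + n)) (z (t + n + 1)) (hflow (t + n)) H E N h1
    rw [h4]
    rfl
  exact congrArg (fun f : L →+* Filter.Germ (atTop : Filter ℕ) K => f w) key

theorem vl_pow (hdom : IsDomain (CR P)) (ρ : RF K →ₐ[K] RF K) (ρb : L →ₐ[K] L)
    (hres : ∀ H : Pl K, Rsd P L (ρ (fr H)) (ρb (algebraMap (CR P) L (Ideal.Quotient.mk _ H))))
    (z : ℕ → Fin 2 → K) (hflow : Flow ρ z)
    (hz : ∀ t, MvPolynomial.eval (z t) P = 0)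
    (hD : ∀ Q : Pl K, ¬ P ∣ Q → ∃ t₀, ∀ t ≥ t₀, MvPolynomial.eval (z t) Q ≠ 0) (N : ℕ) :
    ∀ w : L, vl L hdom z hz hD 0 ((ρb ^ N) w) = vl L hdom z hz hD N w := by
  induction N with
  | zero => intro w; rfl
  | succ N ih =>
    intro w
    rw [pow_succ, AlgHom.mul_apply, ih, vl_shift hdom ρ ρb hres z hflow]

variable [IsScalarTower K (CR P) L]

/-- A relation between `g` and `ρ ^ N g` in the function field gives a relation between the values. -/
theorem rel_points (hdom : IsDomain (CR P)) (ρ : RF K →ₐ[K] RF K) (ρb : L →ₐ[K] L)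
    (hres : ∀ H : Pl K, Rsd P L (ρ (fr H)) (ρb (algebraMap (CR P) L (Ideal.Quotient.mk _ H))))
    (z : ℕ → Fin 2 → K) (hflow : Flow ρ z)
    (hz : ∀ t, MvPolynomial.eval (z t) P = 0)
    (hD : ∀ Q : Pl K, ¬ P ∣ Q → ∃ t₀, ∀ t ≥ t₀, MvPolynomial.eval (z t) Q ≠ 0) (N : ℕ)
    (g g' : Pl K) (G : Polynomial (Polynomial K))
    (hG : Polynomial.eval₂ (Polynomial.eval₂RingHom (algebraMap K L)
      (algebraMap (CR P) L (Ideal.Quotient.mk _ g)))
      ((ρb ^ N) (algebraMap (CR P) L (Ideal.Quotient.mk _ g'))) G = 0) :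
    ∃ t₀, ∀ t ≥ t₀, (G.map (Polynomial.evalRingHom (MvPolynomial.eval (z t) g))).eval
      (MvPolynomial.eval (z (t + N)) g') = 0 := by
  set a : L := algebraMap (CR P) L (Ideal.Quotient.mk _ g) with ha
  set b : L := (ρb ^ N) (algebraMap (CR P) L (Ideal.Quotient.mk _ g')) with hb
  have key : (vl L hdom z hz hD 0).comp
      (Polynomial.eval₂RingHom (Polynomial.eval₂RingHom (algebraMap K L) a) b) =
      (Filter.Germ.coeRingHom (atTop : Filter ℕ)).comp
        (RingHom.pi fun t => Polynomial.eval₂RingHom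
          (Polynomial.evalRingHom (MvPolynomial.eval (z t) g)) (MvPolynomial.eval (z (t + N)) g')) := by
    apply Polynomial.ringHom_ext'
    · apply Polynomial.ringHom_ext'
      · apply RingHom.ext
        intro c
        have h1 : algebraMap K L c = algebraMap (CR P) L (Ideal.Quotient.mk _ (MvPolynomial.C c)) := by
          rw [IsScalarTower.algebraMap_apply K (CR P) L]
          rfl
        simp only [RingHom.comp_apply, Polynomial.coe_eval₂RingHom, Polynomial.eval₂_C]
        rw [h1, vl_mk]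
        simp only [MvPolynomial.eval_C]
        refine Filter.Germ.coe_eq.2 (Filter.Eventually.of_forall fun t => ?_)
        simp [RingHom.pi]
      · simp only [RingHom.comp_apply, Polynomial.coe_eval₂RingHom, Polynomial.eval₂_C,
          Polynomial.eval₂_X]
        rw [ha, vl_mk]
        refine Filter.Germ.coe_eq.2 (Filter.Eventually.of_forall fun t => ?_)
        simp [RingHom.pi]
    · simp only [RingHom.comp_apply, Polynomial.coe_eval₂RingHom, Polynomial.eval₂_X]
      rw [hb, vl_pow hdom ρ ρb hres z hflow, vl_mk]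
      refine Filter.Germ.coe_eq.2 (Filter.Eventually.of_forall fun t => ?_)
      simp [RingHom.pi]
  have h1 := congrArg (fun f : Polynomial (Polynomial K) →+* Filter.Germ (atTop : Filter ℕ) K => f G)
    key
  simp only [RingHom.comp_apply, Polynomial.coe_eval₂RingHom] at h1
  rw [hG, map_zero] at h1
  have h2 : ((fun t => (0 : K) : ℕ → K) : Filter.Germ (atTop : Filter ℕ) K) =
      ((fun t => Polynomial.eval₂ (Polynomial.evalRingHom (MvPolynomial.eval (z t) g))
        (MvPolynomial.eval (z (t + N)) g') G : ℕ → K) : Filter.Germ (atTop : Filter ℕ) K) := h1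
  obtain ⟨t₀, ht₀⟩ := eventually_atTop.1 (Filter.Germ.coe_eq.1 h2)
  refine ⟨t₀, fun t ht => ?_⟩
  rw [Polynomial.eval_map]
  exact (ht₀ t ht).symm

end

end Pool.Agent.Lib.MP_16285c_agZ
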