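import Pool.Agent.Lib.MP_16285c_agZ.UPP.Rt
import Pool.Agent.Lib.MP_16285c_agZ.UPP.Gm
import Pool.Agent.Lib.MP_16285c_agZ.UPP.Dh
import Pool.Agent.Lib.MP_16285c_ag.Vec

/-!
# The growth of the heights along an orbit in an invariant curve
-/

set_option autoImplicit false

open Polynomial

namespace Pool.Agent.Lib.MP_16285c_agZ

open Pool.Agent.Lib.MP_16285c_ag

/-- Growth of a sequence with `h (t + N) ≤ a h t + C`. -/
theorem grow_le (h : ℕ → ℝ) (hh : ∀ t, 0 ≤ h t) (N t₀ : ℕ) (a C β : ℝ) (ha : 0 ≤ a) (hC : 0 ≤ C)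
    (hβ : 1 ≤ β) (hN : a + 1 ≤ β ^ N) (hrec : ∀ t ≥ t₀, h (t + N) ≤ a * h t + C) :
    ∃ D : ℝ, 0 ≤ D ∧ ∀ t, h t ≤ D * β ^ t := by
  have hS : ∀ t < t₀ + N, h t ≤ ∑ s ∈ Finset.range (t₀ + N), h s := fun t ht =>
    Finset.single_le_sum (fun s _ => hh s) (Finset.mem_range.2 ht)
  have hS0 : 0 ≤ ∑ s ∈ Finset.range (t₀ + N), h s := Finset.sum_nonneg fun s _ => hh s
  refine ⟨C + ∑ s ∈ Finset.range (t₀ + N), h s, add_nonneg hC hS0, fun t => ?_⟩
  set D := C + ∑ s ∈ Finset.range (t₀ + N), h s with hD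
  have hD0 : 0 ≤ D := add_nonneg hC hS0
  induction t using Nat.strong_induction_on with
  | _ t ih =>
    have hone : ∀ s : ℕ, (1 : ℝ) ≤ β ^ s := fun s => one_le_pow₀ hβ
    rcases lt_or_ge t (t₀ + N) with ht | ht
    · calc h t ≤ D := (hS t ht).trans (by rw [hD]; linarith)
        _ = D * 1 := (mul_one D).symm
        _ ≤ D * β ^ t := mul_le_mul_of_nonneg_left (hone t) hD0
    · obtain ⟨s, rfl⟩ : ∃ s, t = s + N := ⟨t - N, by omega⟩
      have hs : t₀ ≤ s := by omega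
      rcases Nat.eq_zero_or_pos N with rfl | hN0
      · -- `N = 0`
        simp only [pow_zero] at hN
        have ha0 : a = 0 := le_antisymm (by linarith) ha
        have h1 := hrec s hs
        simp only [add_zero, ha0, zero_mul, zero_add] at h1
        simp only [add_zero]
        calc h s ≤ C := h1
          _ ≤ D := by rw [hD]; linarith
          _ = D * 1 := (mul_one D).symm
          _ ≤ D * β ^ s := mul_le_mul_of_nonneg_left (hone s) hD0
      · have h1 := hrec s hs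
        have h2 := ih s (by omega)
        have h3 : a * h s ≤ a * (D * β ^ s) := mul_le_mul_of_nonneg_left h2 ha
        have h4 : C ≤ D * β ^ s := by
          calc C ≤ D := by rw [hD]; linarith
            _ = D * 1 := (mul_one D).symm
            _ ≤ D * β ^ s := mul_le_mul_of_nonneg_left (hone s) hD0
        have h5 : (a + 1) * (D * β ^ s) ≤ β ^ N * (D * β ^ s) :=
          mul_le_mul_of_nonneg_right hN (mul_nonneg hD0 (zero_le_one.trans (hone s)))
        calc h (s + N) ≤ a * h s + C := h1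
          _ ≤ a * (D * β ^ s) + D * β ^ s := by linarith
          _ = (a + 1) * (D * β ^ s) := by ring
          _ ≤ β ^ N * (D * β ^ s) := h5
          _ = D * β ^ (s + N) := by rw [pow_add]; ring

/-- The degrees of the coefficients are bounded. -/
theorem coeff_bound {K : Type} [Field K] (G : K[X][X]) : ∃ a : ℕ, ∀ j, (G.coeff j).natDegree ≤ a := by
  refine ⟨G.support.sup fun j => (G.coeff j).natDegree, fun j => ?_⟩
  by_cases hj : j ∈ G.support
  · exact Finset.le_sup (f := fun j => (G.coeff j).natDegree) hj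
  · rw [notMem_support_iff.1 hj, natDegree_zero]
    exact Nat.zero_le _

section

variable {K : Type} [Field K] {P : Pl K} {L : Type} [Field L] [Algebra (CR P) L]
  [IsFractionRing (CR P) L] [Algebra K L] [IsScalarTower K (CR P) L]

theorem aeval_pt (z : Fin 2 → K) (H : Pl K) :
    (MvPolynomial.aeval z : Pl K →ₐ[K] K) H = MvPolynomial.eval z H := by
  rw [MvPolynomial.aeval_eq_eval]

theorem eval_aeval_X (z : Fin 2 → K) (i : Fin 2) (q : K[X]) :
    MvPolynomial.eval z (aeval (MvPolynomial.X i : Pl K) q) = q.eval (z i) := by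
  have h := aeval_algHom_apply (MvPolynomial.aeval z : Pl K →ₐ[K] K) (MvPolynomial.X i) q
  rw [MvPolynomial.aeval_X, aeval_pt] at h
  rw [← h, coe_aeval_eq_eval]

/-- A nonzero polynomial in a transcendental coordinate does not vanish at the late points of the orbit. -/
theorem lead_ne (i : Fin 2) (hi : Transcendental K (rs P L (MvPolynomial.X i))) (z : ℕ → Fin 2 → K)
    (hD : ∀ Q : Pl K, ¬ P ∣ Q → ∃ t₀, ∀ t ≥ t₀, MvPolynomial.eval (z t) Q ≠ 0) (q : K[X])
    (hq : q ≠ 0) : ∃ t₀, ∀ t ≥ t₀, q.eval (z t i) ≠ 0 := by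
  obtain ⟨t₀, ht₀⟩ := hD (aeval (MvPolynomial.X i : Pl K) q) (by
    rintro ⟨c, hc⟩
    have h1 := congrArg (rs P L) hc
    rw [map_mul, rs_self, zero_mul, ← aeval_algHom_apply] at h1
    exact hq ((transcendental_iff.1 hi) q h1))
  refine ⟨t₀, fun t ht => ?_⟩
  rw [← eval_aeval_X]
  exact ht₀ t ht

/-- **Growth of the heights along an orbit in an invariant curve.** -/
theorem upp [Height.AdmissibleAbsValues K] (hP : Irreducible P) (ρ : RF K →ₐ[K] RF K)
    (ρb : L →ₐ[K] L)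
    (hres : ∀ H : Pl K, Rsd P L (ρ (fr H)) (ρb (algebraMap (CR P) L (Ideal.Quotient.mk _ H))))
    (z : ℕ → Fin 2 → K) (hflow : Flow ρ z) (hz : ∀ t, MvPolynomial.eval (z t) P = 0)
    (hD : ∀ Q : Pl K, ¬ P ∣ Q → ∃ t₀, ∀ t ≥ t₀, MvPolynomial.eval (z t) Q ≠ 0) :
    1 ≤ Module.finrank ρb.fieldRange L ∧ ∀ ε : ℝ, 0 < ε → ∃ C : ℝ, 0 ≤ C ∧ ∀ t,
      Height.logHeight (hc (z t)) ≤ C * ((Module.finrank ρb.fieldRange L : ℝ) + ε) ^ t := by
  have hdom : IsDomain (CR P) := by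
    have hp : Prime P := UniqueFactorizationMonoid.irreducible_iff_prime.1 hP
    have : (Ideal.span {P}).IsPrime := (Ideal.span_singleton_prime hP.ne_zero).2 hp
    exact Ideal.Quotient.isDomain _
  obtain ⟨i, hi⟩ := exists_transcendental (L := L) hP
  obtain ⟨hδ, hd, hrel⟩ := rel_exists i hP.ne_zero hi ρb
  refine ⟨hδ, fun ε hε => ?_⟩
  set δ := Module.finrank ρb.fieldRange L with hδdef
  set d := Module.finrank (IntermediateField.adjoin K {rs P L (MvPolynomial.X i)}) L with hddef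
  have hδ1 : (1 : ℝ) ≤ δ := by exact_mod_cast hδ
  have hδ0 : (0 : ℝ) < δ := by linarith
  -- the choice of `N`
  obtain ⟨N, hN⟩ : ∃ N : ℕ, ((d * δ ^ N : ℕ) : ℝ) + 1 ≤ ((δ : ℝ) + ε) ^ N := by
    obtain ⟨N, hN⟩ := pow_unbounded_of_one_lt ((d : ℝ) + 1) (y := ((δ : ℝ) + ε) / δ) (by
      rw [one_lt_div hδ0]
      linarith)
    refine ⟨N, ?_⟩
    rw [div_pow, lt_div_iff₀ (pow_pos hδ0 N)] at hN
    have h1 : (1 : ℝ) ≤ (δ : ℝ) ^ N := one_le_pow₀ hδ1
    push_cast
    linarith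
  obtain ⟨Φ, hΦ0, hΦd, hΦ⟩ := hrel N
  obtain ⟨C₁, hC₁, hroot⟩ := root_sharp (d * δ ^ N) Φ hΦd
  obtain ⟨t₁, ht₁⟩ := rel_points hdom ρ ρb hres z hflow hz hD N (MvPolynomial.X i)
    (MvPolynomial.X i) Φ (by
      rw [aa_eq] at hΦ
      exact hΦ)
  obtain ⟨t₂, ht₂⟩ := lead_ne i hi z hD Φ.leadingCoeff (leadingCoeff_ne_zero.2 hΦ0)
  obtain ⟨D, hD0, hDt⟩ := grow_le (fun t => Height.logHeight₁ (z t i))
    (fun t => Height.zero_le_logHeight₁ _) N (t₁ + t₂) ((d * δ ^ N : ℕ) : ℝ) C₁ ((δ : ℝ) + ε)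
    (Nat.cast_nonneg _) hC₁ (by linarith) hN (fun t ht => by
      have h1 := ht₁ t (by omega)
      rw [MvPolynomial.eval_X, MvPolynomial.eval_X] at h1
      exact hroot _ _ (ht₂ t (by omega)) h1)
  -- the other coordinate
  obtain ⟨a, ha⟩ := coeff_bound (tw i P)
  obtain ⟨C₂, hC₂, hroot₂⟩ := root_sharp a (tw i P) ha
  obtain ⟨t₃, ht₃⟩ := lead_ne i hi z hD (tw i P).leadingCoeff
    (leadingCoeff_ne_zero.2 ((map_ne_zero_iff (tw (K := K) i) (tw_inj i)).2 hP.ne_zero))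
  have hother : ∀ t ≥ t₃, Height.logHeight₁ (z t (1 - i)) ≤ a * Height.logHeight₁ (z t i) + C₂ := by
    intro t ht
    refine hroot₂ _ _ (ht₃ t ht) ?_
    have h1 := tw_eval i (MvPolynomial.aeval (z t) : Pl K →ₐ[K] K) P
    rw [aa_eq, MvPolynomial.aeval_X, MvPolynomial.aeval_X, aeval_pt] at h1
    rw [eval_map]
    have h2 : evalRingHom (z t i) = eval₂RingHom (algebraMap K K) (z t i) := by
      apply Polynomial.ringHom_ext'
      · apply RingHom.ext
        intro c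
        simp
      · simp
    rw [h2, h1]
    exact hz t
  set S := ∑ t ∈ Finset.range t₃, Height.logHeight (hc (z t)) with hS
  have hS0 : 0 ≤ S := Finset.sum_nonneg fun t _ => Height.logHeight_nonneg _
  have hβ1 : (1 : ℝ) ≤ (δ : ℝ) + ε := by linarith
  have hC0 : 0 ≤ (1 + a) * D + C₂ + S := by positivity
  refine ⟨(1 + a) * D + C₂ + S, hC0, fun t => ?_⟩
  have hone : (1 : ℝ) ≤ ((δ : ℝ) + ε) ^ t := one_le_pow₀ hβ1
  rcases lt_or_ge t t₃ with ht | ht
  · have h1 : Height.logHeight (hc (z t)) ≤ S :=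
      Finset.single_le_sum (f := fun t => Height.logHeight (hc (z t)))
        (fun s _ => Height.logHeight_nonneg _) (Finset.mem_range.2 ht)
    have h2 : 0 ≤ (1 + (a : ℝ)) * D := by positivity
    nlinarith
  · have h1 := vecP.{0} K (Fin 3) (hc (z t))
    have h2 : ∑ k : Fin 3, Height.logHeight₁ (hc (z t) k) =
        Height.logHeight₁ (z t i) + Height.logHeight₁ (z t (1 - i)) := by
      rw [Fin.sum_univ_succ, Fin.sum_univ_two]
      have e0 : hc (z t) 0 = 1 := rfl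
      have e1 : hc (z t) (Fin.succ 0) = z t 0 := rfl
      have e2 : hc (z t) (Fin.succ 1) = z t 1 := rfl
      rw [e0, e1, e2, Height.logHeight₁_one, zero_add]
      fin_cases i
      · rfl
      · exact add_comm _ _
    rw [h2] at h1
    have h3 := hother t ht
    have h4 := hDt t
    have h5 : (0 : ℝ) ≤ a := Nat.cast_nonneg a
    have h6 : (a : ℝ) * Height.logHeight₁ (z t i) ≤ a * (D * ((δ : ℝ) + ε) ^ t) :=
      mul_le_mul_of_nonneg_left h4 h5
    have h7 : C₂ ≤ C₂ * ((δ : ℝ) + ε) ^ t := le_mul_of_one_le_right hC₂ hone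
    have h8 : 0 ≤ S * ((δ : ℝ) + ε) ^ t := mul_nonneg hS0 (zero_le_one.trans hone)
    calc Height.logHeight (hc (z t)) ≤ _ := h1
      _ ≤ D * ((δ : ℝ) + ε) ^ t + (a * (D * ((δ : ℝ) + ε) ^ t) + C₂ * ((δ : ℝ) + ε) ^ t) := by
        linarith
      _ ≤ ((1 + a) * D + C₂ + S) * ((δ : ℝ) + ε) ^ t := by linarith

end

end Pool.Agent.Lib.MP_16285c_agZ
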