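import Pool.Agent.Lib.MP_16285c_agZ.UPP.Fin
import Pool.Agent.Lib.MP_16285c_agZ.Spec2

/-!
# Package UPP: the upper bound for the growth of heights on an invariant curve
-/

set_option autoImplicit false

namespace Pool.Agent.Lib.MP_16285c_agZ

theorem stmtUpp : StmtUpp := by
  intro K _ _ _ ρ P hP L _ _ _ _ _ ρb hres z hflow hz hD ε hε
  obtain ⟨C, -, hC⟩ := (upp hP ρ ρb hres z hflow hz hD).2 ε hε
  exact ⟨C, hC⟩

end Pool.Agent.Lib.MP_16285c_agZ
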