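import Pool.Agent.Lib.MP_16285c_ag.Pow

/-!
# Heights of the roots of a polynomial in two variables, with the sharp coefficient
-/

set_option autoImplicit false

namespace Pool.Agent.Lib.MP_16285c_agZ

open Pool.Agent.Lib.MP_16285c_ag

/-- The height of a vector of values of polynomials of degree at most `a`. -/
theorem height_polys {K : Type} [Field K] [Height.AdmissibleAbsValues K] {ι : Type} [Finite ι] (a : ℕ)
    (M : ι → Polynomial K) (ha : ∀ i, (M i).natDegree ≤ a) :
    ∃ C : ℝ, 0 ≤ C ∧ ∀ u : K,
      Height.logHeight (fun i => (M i).eval u) ≤ a * Height.logHeight₁ u + C := by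
  have hpow : ∀ u : K, Height.logHeight (fun i : Fin (a + 1) => u ^ (i : ℕ)) =
      a * Height.logHeight₁ u := fun u => powP.{0} K u a
  refine ⟨Height.totalWeight K * Real.log (Nat.card (Fin (a + 1))) +
    Height.logHeight (fun c : ι × Fin (a + 1) => (M c.1).coeff c.2), add_nonneg
      (mul_nonneg (Nat.cast_nonneg _) (Real.log_natCast_nonneg _)) (Height.logHeight_nonneg _),
    fun u => ?_⟩
  have h := Height.logHeight_linearMap_apply_le (K := K)
    (fun c : ι × Fin (a + 1) => (M c.1).coeff c.2) (fun i : Fin (a + 1) => u ^ (i : ℕ))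
  have e : (fun j : ι => ∑ i : Fin (a + 1),
      (fun c : ι × Fin (a + 1) => (M c.1).coeff c.2) (j, i) * u ^ (i : ℕ)) =
      fun j => (M j).eval u := by
    funext j
    rw [Polynomial.eval_eq_sum_range' (Nat.lt_succ_of_le (ha j)),
      Finset.sum_range fun i => (M j).coeff i * u ^ i]
  rw [e, hpow] at h
  linarith

/-- If `G(u, v) = 0` and `G` has degree at most `a` in `u`, then `h(v) ≤ a h(u) + C`. -/
theorem root_sharp {K : Type} [Field K] [Height.AdmissibleAbsValues K] (a : ℕ)
    (G : Polynomial (Polynomial K)) (ha : ∀ i, (G.coeff i).natDegree ≤ a) :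
    ∃ C : ℝ, 0 ≤ C ∧ ∀ u v : K, G.leadingCoeff.eval u ≠ 0 →
      (G.map (Polynomial.evalRingHom u)).eval v = 0 →
      Height.logHeight₁ v ≤ a * Height.logHeight₁ u + C := by
  rcases Nat.eq_zero_or_pos G.natDegree with hs0 | hs0
  · refine ⟨0, le_rfl, fun u v hlc hroot => ?_⟩
    exfalso
    apply hlc
    rw [Polynomial.leadingCoeff, hs0]
    rw [Polynomial.eq_C_of_natDegree_eq_zero hs0, Polynomial.map_C, Polynomial.eval_C] at hroot
    exact hroot
  obtain ⟨s, hs⟩ : ∃ s, G.natDegree = s + 1 := ⟨G.natDegree - 1, by omega⟩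
  let M : Fin (s + 2) × Fin (s + 1) → Polynomial K := fun c =>
    if (c.1 : ℕ) = s + 1 then - G.coeff c.2 else
      (if (c.1 : ℕ) = c.2 then G.leadingCoeff else 0)
  have hM : ∀ c, (M c).natDegree ≤ a := by
    intro c
    simp only [M]
    split_ifs
    · rw [Polynomial.natDegree_neg]
      exact ha _
    · exact ha _
    · simp
  obtain ⟨C, hC, hCu⟩ := height_polys a M hM
  have hpow : ∀ (v : K) (d : ℕ), Height.logHeight (fun i : Fin (d + 1) => v ^ (i : ℕ)) =
      d * Height.logHeight₁ v := fun v d => powP.{0} K v d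
  set T : ℝ := Height.totalWeight K * Real.log (Nat.card (Fin (s + 1))) with hT
  have hT0 : (0 : ℝ) ≤ T := mul_nonneg (Nat.cast_nonneg _) (Real.log_natCast_nonneg _)
  refine ⟨T + C, add_nonneg hT0 hC, fun u v hlc hroot => ?_⟩
  have hev : (G.map (Polynomial.evalRingHom u)).eval v =
      ∑ i ∈ Finset.range (s + 2), (G.coeff i).eval u * v ^ i := by
    rw [Polynomial.eval_map, Polynomial.eval₂_eq_sum_range, hs]
    rfl
  rw [hroot, Finset.sum_range_succ] at hev
  have hlead : G.leadingCoeff.eval u * v ^ (s + 1) =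
      ∑ i : Fin (s + 1), -((G.coeff i).eval u) * v ^ (i : ℕ) := by
    have h4 : (G.coeff (s + 1)).eval u = G.leadingCoeff.eval u := by
      rw [Polynomial.leadingCoeff, hs]
    rw [h4] at hev
    simp only [neg_mul, Finset.sum_neg_distrib]
    rw [Fin.sum_univ_eq_sum_range (fun i => (G.coeff i).eval u * v ^ i)]
    linear_combination -hev
  have hvec : G.leadingCoeff.eval u • (fun i : Fin (s + 2) => v ^ (i : ℕ)) =
      fun c => ∑ i : Fin (s + 1), (M (c, i)).eval u * v ^ (i : ℕ) := by
    funext c
    simp only [M, Pi.smul_apply, smul_eq_mul]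
    by_cases hc : (c : ℕ) = s + 1
    · simp only [hc, if_true]
      rw [hlead]
      exact Finset.sum_congr rfl fun i _ => by rw [Polynomial.eval_neg]
    · simp only [hc, if_false]
      have hlt : (c : ℕ) < s + 1 := by
        have := c.2
        omega
      rw [Finset.sum_eq_single (⟨c, hlt⟩ : Fin (s + 1))]
      · simp
      · intro b _ hb
        have : ¬ ((c : ℕ) = (b : ℕ)) := fun h => hb (Fin.ext h.symm)
        simp [this]
      · intro h
        exact absurd (Finset.mem_univ _) h
  have h4 := Height.logHeight_linearMap_apply_le (K := K)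
    (fun c : Fin (s + 2) × Fin (s + 1) => (M c).eval u)
    (fun i : Fin (s + 1) => v ^ (i : ℕ))
  rw [← hvec, Height.logHeight_smul_eq_logHeight _ hlc, hpow, hpow] at h4
  have h5 := hCu u
  push_cast at h4
  linarith

end Pool.Agent.Lib.MP_16285c_agZ
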